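import Pool.Agent.H174.GP.StA
import Pool.Agent.H174.GP.StP
import Pool.Agent.H174.GP.StC
import Pool.Agent.H174.GP.StB

/-!
# The final theorem of project GP (task GP final of helper174)
-/

set_option autoImplicit false

open MeasureTheory ProbabilityTheory Finset Filter Topology

namespace Pool.Agent.H336.GPF

open Pool.Agent.H174.GP

theorem fin_set (d m : ℕ) : {gh : (Fin d → ℕ) × (Fin d → ℕ) |
    d ^ 2 + ∑ i : Fin d, ((i : ℕ) + 1) * (gh.1 i + gh.2 i) = m}.Finite := by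
  apply Set.Finite.subset ((Set.finite_Icc (0 : Fin d → ℕ) (fun _ => m)).prod
    (Set.finite_Icc (0 : Fin d → ℕ) (fun _ => m)))
  rintro ⟨g, h⟩ hgh
  have hgh : d ^ 2 + ∑ i : Fin d, ((i : ℕ) + 1) * (g i + h i) = m := hgh
  have key : ∀ i : Fin d, g i ≤ m ∧ h i ≤ m := by
    intro i
    have h1 : ((i : ℕ) + 1) * (g i + h i) ≤ ∑ i : Fin d, ((i : ℕ) + 1) * (g i + h i) :=
      Finset.single_le_sum (f := fun i : Fin d => ((i : ℕ) + 1) * (g i + h i))
        (fun _ _ => Nat.zero_le _) (Finset.mem_univ i)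
    have h2 : 1 * (g i + h i) ≤ ((i : ℕ) + 1) * (g i + h i) :=
      Nat.mul_le_mul_right _ (Nat.le_add_left 1 _)
    constructor <;> omega
  exact ⟨⟨fun i => Nat.zero_le _, fun i => (key i).1⟩, ⟨fun i => Nat.zero_le _, fun i => (key i).2⟩⟩

theorem cntP_le (d m : ℕ) : cntP d m ≤ cnt d m := by
  unfold cntP cnt
  exact Set.ncard_le_ncard (fun gh hgh => hgh.1) (fin_set d m)

/-- The bounds for one `n`. -/
theorem bounds (h1 : S_Count) (n : ℕ) (hn : 1 ≤ n) (T : ℕ → Prop) [DecidablePred T] (a b e : ℝ)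
    (ha : 0 ≤ a) (hb : 0 ≤ b)
    (hA : (∑ d ∈ (Finset.range (2 * n + 1)).filter (fun d : ℕ => ¬ T d), (cnt d (2 * n) : ℝ))
      ≤ e * ∑ d ∈ Finset.range (2 * n + 1), (cnt d (2 * n) : ℝ))
    (hR : ∀ d : ℕ, T d → (cntP d (2 * n) : ℝ) ≤ a * cnt d (2 * n) ∧
      b * cnt d (2 * n) ≤ cntP d (2 * n)) :
    b * (1 - e) ≤ pg (2 * n) ∧ pg (2 * n) ≤ a + e := by
  have hS : (Nat.card (Nat.Partition (2 * n)) : ℝ) =
      ∑ d ∈ Finset.range (2 * n + 1), (cnt d (2 * n) : ℝ) := by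
    rw [h1.1 (2 * n)]
    push_cast
    rfl
  have hP : (Nat.card {p : Nat.Partition (2 * n) // IsGraphical p} : ℝ) =
      ∑ d ∈ Finset.range (2 * n + 1), (cntP d (2 * n) : ℝ) := by
    rw [h1.2 n hn]
    push_cast
    rfl
  have hpos : 0 < (Nat.card (Nat.Partition (2 * n)) : ℝ) := by
    have : 0 < Nat.card (Nat.Partition (2 * n)) := Nat.card_pos
    exact_mod_cast this
  set s : ℝ := ∑ d ∈ Finset.range (2 * n + 1), (cnt d (2 * n) : ℝ) with hs
  have hspos : 0 < s := by rw [← hS]; exact hpos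
  have hsplit := Finset.sum_filter_add_sum_filter_not (Finset.range (2 * n + 1)) T
    (fun d => (cnt d (2 * n) : ℝ))
  have hsplitP := Finset.sum_filter_add_sum_filter_not (Finset.range (2 * n + 1)) T
    (fun d => (cntP d (2 * n) : ℝ))
  have hnonneg : 0 ≤ ∑ d ∈ (Finset.range (2 * n + 1)).filter (fun d : ℕ => ¬ T d),
      (cnt d (2 * n) : ℝ) := Finset.sum_nonneg fun d _ => Nat.cast_nonneg _
  have hnonnegP : 0 ≤ ∑ d ∈ (Finset.range (2 * n + 1)).filter (fun d : ℕ => ¬ T d),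
      (cntP d (2 * n) : ℝ) := Finset.sum_nonneg fun d _ => Nat.cast_nonneg _
  have hnot : ∑ d ∈ (Finset.range (2 * n + 1)).filter (fun d : ℕ => ¬ T d),
      (cntP d (2 * n) : ℝ) ≤ ∑ d ∈ (Finset.range (2 * n + 1)).filter (fun d : ℕ => ¬ T d),
      (cnt d (2 * n) : ℝ) := Finset.sum_le_sum fun d _ => by exact_mod_cast cntP_le d (2 * n)
  have hup : ∑ d ∈ (Finset.range (2 * n + 1)).filter T, (cntP d (2 * n) : ℝ) ≤
      a * ∑ d ∈ (Finset.range (2 * n + 1)).filter T, (cnt d (2 * n) : ℝ) := by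
    rw [Finset.mul_sum]
    exact Finset.sum_le_sum fun d hd => (hR d (Finset.mem_filter.mp hd).2).1
  have hlo : b * ∑ d ∈ (Finset.range (2 * n + 1)).filter T, (cnt d (2 * n) : ℝ) ≤
      ∑ d ∈ (Finset.range (2 * n + 1)).filter T, (cntP d (2 * n) : ℝ) := by
    rw [Finset.mul_sum]
    exact Finset.sum_le_sum fun d hd => (hR d (Finset.mem_filter.mp hd).2).2
  unfold pg
  rw [hS, hP, le_div_iff₀ hspos, div_le_iff₀ hspos]
  constructor
  · have : b * (s * (1 - e)) ≤ b * ∑ d ∈ (Finset.range (2 * n + 1)).filter T,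
        (cnt d (2 * n) : ℝ) := mul_le_mul_of_nonneg_left (by linarith) hb
    nlinarith
  · have : a * ∑ d ∈ (Finset.range (2 * n + 1)).filter T, (cnt d (2 * n) : ℝ) ≤ a * s :=
      mul_le_mul_of_nonneg_left (by linarith) ha
    nlinarith

theorem limit_of_bounds (f : ℕ → ℝ) (t : ℝ)
    (h : ∀ ε : ℝ, 0 < ε → ∀ᶠ n : ℕ in atTop, (n : ℝ) ^ (-t - ε) ≤ f n ∧ f n ≤ (n : ℝ) ^ (-t + ε)) :
    Tendsto (fun n : ℕ => -Real.log (f n) / Real.log n) atTop (𝓝 t) := by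
  rw [Metric.tendsto_nhds]
  intro δ hδ
  filter_upwards [h (δ / 2) (by linarith), Filter.eventually_ge_atTop 2] with n hn hn2
  have hn0 : (0 : ℝ) < n := by exact_mod_cast (by omega : 0 < n)
  have hlog : 0 < Real.log n := Real.log_pos (by exact_mod_cast (by omega : 1 < n))
  have hf : 0 < f n := lt_of_lt_of_le (Real.rpow_pos_of_pos hn0 _) hn.1
  have h1 : (-t - δ / 2) * Real.log n ≤ Real.log (f n) := by
    rw [← Real.log_rpow hn0]
    exact Real.log_le_log (Real.rpow_pos_of_pos hn0 _) hn.1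
  have h2 : Real.log (f n) ≤ (-t + δ / 2) * Real.log n := by
    rw [← Real.log_rpow hn0]
    exact Real.log_le_log hf hn.2
  rw [Real.dist_eq, abs_lt]
  constructor
  · have : t - δ / 2 ≤ -Real.log (f n) / Real.log n := by
      rw [le_div_iff₀ hlog]
      linarith
    linarith
  · have : -Real.log (f n) / Real.log n ≤ t + δ / 2 := by
      rw [div_le_iff₀ hlog]
      linarith
    linarith

theorem ev_exp (κ s : ℝ) (hκ : 0 < κ) :
    ∀ᶠ n : ℕ in atTop, Real.exp (-(κ * Real.sqrt n)) ≤ (n : ℝ) ^ (-(s / 2)) := by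
  have h1 : Tendsto (fun x : ℝ => x ^ s * Real.exp (-κ * x)) atTop (𝓝 0) :=
    tendsto_rpow_mul_exp_neg_mul_atTop_nhds_zero s κ hκ
  have h2 : Tendsto (fun n : ℕ => Real.sqrt (n : ℝ)) atTop atTop :=
    Real.tendsto_sqrt_atTop.comp tendsto_natCast_atTop_atTop
  have h3 := (h1.comp h2).eventually (gt_mem_nhds (show (0 : ℝ) < 1 by norm_num))
  filter_upwards [h3, Filter.eventually_ge_atTop 1] with n hn hn1
  have hn0 : (0 : ℝ) < n := by exact_mod_cast hn1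
  have h4 : Real.sqrt (n : ℝ) ^ s = (n : ℝ) ^ (s / 2) := by
    rw [Real.sqrt_eq_rpow, ← Real.rpow_mul hn0.le]
    congr 1
    ring
  have h5 : (n : ℝ) ^ (s / 2) * Real.exp (-(κ * Real.sqrt n)) < 1 := by
    have h6 : (Real.sqrt (n : ℝ)) ^ s * Real.exp (-κ * Real.sqrt (n : ℝ)) < 1 := hn
    rw [h4, neg_mul] at h6
    exact h6
  have h7 : 0 < (n : ℝ) ^ (s / 2) := Real.rpow_pos_of_pos hn0 _
  rw [Real.rpow_neg hn0.le, ← one_div, le_div_iff₀ h7, mul_comm]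
  exact h5.le

theorem gp_final (h1 : S_Count) (h2 : S_A4) (h3 : S_R) (h4 : S_theta) : S_final := by
  obtain ⟨θ, hθ0, hθ⟩ := h4
  obtain ⟨c1, hc1, c2, hc12, hc2, κ, hκ, n1, hA⟩ := h2
  refine ⟨θ, hθ0, hθ, ?_⟩
  apply limit_of_bounds (fun n => pg (2 * n)) (θ / 2)
  intro ε hε
  obtain ⟨n2, hR⟩ := h3 θ c1 c2 (ε / 2) hθ0 hθ hc1 hc12 hc2 (by linarith)
  have hε2 : Tendsto (fun n : ℕ => (n : ℝ) ^ (ε / 2)) atTop atTop :=
    (tendsto_rpow_atTop (by linarith)).comp tendsto_natCast_atTop_atTop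
  filter_upwards [ev_exp κ θ hκ, ev_exp κ 2 hκ, hε2.eventually_ge_atTop 2,
    Filter.eventually_ge_atTop n1, Filter.eventually_ge_atTop n2,
    Filter.eventually_ge_atTop 2] with n e1 e2 e3 e4 e5 e6
  have hn0 : (0 : ℝ) < n := by exact_mod_cast (by omega : 0 < n)
  have hn1 : (1 : ℝ) ≤ n := by exact_mod_cast (by omega : 1 ≤ n)
  have hn2 : (2 : ℝ) ≤ n := by exact_mod_cast e6
  have hb := bounds h1 n (by omega)
    (fun d : ℕ => c1 * Real.sqrt n ≤ d ∧ (d : ℝ) ≤ c2 * Real.sqrt n)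
    ((n : ℝ) ^ (-(θ / 2) + ε / 2)) ((n : ℝ) ^ (-(θ / 2) - ε / 2)) (Real.exp (-(κ * Real.sqrt n)))
    (Real.rpow_nonneg hn0.le _) (Real.rpow_nonneg hn0.le _) (hA n e4)
    (fun d hd => hR n e5 d hd.1 hd.2)
  have e2' : Real.exp (-(κ * Real.sqrt n)) ≤ 1 / 2 := by
    have h5 : (n : ℝ) ^ (-((2 : ℝ) / 2)) = 1 / n := by
      rw [show (-((2 : ℝ) / 2)) = -1 by norm_num, Real.rpow_neg_one, one_div]
    rw [h5] at e2
    exact e2.trans (one_div_le_one_div_of_le (by norm_num) hn2)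
  constructor
  · refine le_trans ?_ hb.1
    have h6 : (n : ℝ) ^ (-(θ / 2) - ε / 2) = (n : ℝ) ^ (-(θ / 2) - ε) * (n : ℝ) ^ (ε / 2) := by
      rw [← Real.rpow_add hn0]
      congr 1
      ring
    rw [h6, mul_assoc]
    have h7 : 1 ≤ (n : ℝ) ^ (ε / 2) * (1 - Real.exp (-(κ * Real.sqrt n))) := by nlinarith
    exact le_mul_of_one_le_right (Real.rpow_nonneg hn0.le _) h7
  · refine hb.2.trans ?_
    have h6 : (n : ℝ) ^ (-(θ / 2) + ε) = (n : ℝ) ^ (-(θ / 2) + ε / 2) * (n : ℝ) ^ (ε / 2) := by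
      rw [← Real.rpow_add hn0]
      congr 1
      ring
    have h7 : (n : ℝ) ^ (-(θ / 2)) ≤ (n : ℝ) ^ (-(θ / 2) + ε / 2) :=
      Real.rpow_le_rpow_of_exponent_le hn1 (by linarith)
    have h8 : 0 < (n : ℝ) ^ (-(θ / 2) + ε / 2) := Real.rpow_pos_of_pos hn0 _
    rw [h6]
    nlinarith

end Pool.Agent.H336.GPF
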